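import Mathlib

/-!
# FB2: a bound by Cramer's rule
-/

set_option autoImplicit false

namespace Pool.Agent.N415.FB

open Finset

variable {m k : ℕ}

/-- a rational functional which vanishes on integral vectors can be made integral -/
theorem clear_den {k : ℕ} (w : Fin k → ℚ) (hw : w ≠ 0) :
    ∃ (D : ℤ) (v : Fin k → ℤ), D ≠ 0 ∧ v ≠ 0 ∧ ∀ e, (v e : ℚ) = D * w e := by
  obtain ⟨D, hD⟩ := IsLocalization.exist_integer_multiples_of_finite (nonZeroDivisors ℤ) w
  have hD0 : (D : ℤ) ≠ 0 := nonZeroDivisors.ne_zero D.2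
  choose v hv using hD
  have hv' : ∀ e, (v e : ℚ) = (D : ℤ) * w e := by
    intro e
    have h1 := hv e
    have h2 : ((algebraMap ℤ ℚ) (v e)) = (v e : ℚ) := rfl
    rw [h2] at h1
    rw [h1, zsmul_eq_mul]
  refine ⟨D, v, hD0, ?_, hv'⟩
  intro h0
  apply hw
  funext e
  have h1 := hv' e
  rw [h0] at h1
  simp only [Pi.zero_apply, Int.cast_zero] at h1
  rcases mul_eq_zero.mp h1.symm with h2 | h2
  · exact absurd (by exact_mod_cast h2) hD0
  · exact h2

/-- the case of a nonsingular matrix -/
theorem cramer_aux {n : ℕ} (U : Matrix (Fin (n + 1)) (Fin (n + 1)) ℤ) (hU : U.det ≠ 0) (M b : ℤ)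
    (hM : ∀ i e, |U i e| ≤ M) (a : Fin (n + 1) → ℤ) (ha : ∀ i, |∑ e, U i e * a e| ≤ b) (e : Fin (n + 1)) :
    |a e| ≤ (n + 1).factorial * M ^ n * b := by
  have hM0 : 0 ≤ M := (abs_nonneg _).trans (hM 0 0)
  have hadj : ∀ i j, |U.adjugate i j| ≤ n.factorial * M ^ n := by
    intro i j
    rw [Matrix.adjugate_fin_succ_eq_det_submatrix, abs_mul, abs_pow, abs_neg, abs_one, one_pow, one_mul]
    have h := Matrix.det_le (A := U.submatrix j.succAbove i.succAbove) (abv := (AbsoluteValue.abs : AbsoluteValue ℤ ℤ))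
      (x := M) (fun p q => hM _ _)
    rw [Fintype.card_fin, nsmul_eq_mul] at h
    exact h
  have h1 : U.det * a e = ∑ j, U.adjugate e j * ∑ l, U j l * a l := by
    have h2 : (U.adjugate * U).mulVec a e = U.det * a e := by
      rw [Matrix.adjugate_mul, Matrix.smul_mulVec, Matrix.one_mulVec]
      rfl
    rw [← h2, ← Matrix.mulVec_mulVec]
    rfl
  have h3 : |U.det * a e| ≤ (n + 1).factorial * M ^ n * b := by
    rw [h1]
    calc |∑ j, U.adjugate e j * ∑ l, U j l * a l| ≤ ∑ j, |U.adjugate e j * ∑ l, U j l * a l| :=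
          abs_sum_le_sum_abs _ _
      _ ≤ ∑ _j : Fin (n + 1), (n.factorial * M ^ n * b) := by
          refine sum_le_sum fun j _ => ?_
          rw [abs_mul]
          exact mul_le_mul (hadj e j) (ha j) (abs_nonneg _) (by positivity)
      _ = (n + 1).factorial * M ^ n * b := by
          rw [sum_const, card_univ, Fintype.card_fin, nsmul_eq_mul, Nat.factorial_succ]
          push_cast
          ring
  have h4 : 1 ≤ |U.det| := Int.one_le_abs hU
  rw [abs_mul] at h3
  have h5 := abs_nonneg (a e)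
  nlinarith

/-- FB2 -/
theorem cramer {ι : Type*} (u : ι → Fin k → ℤ) (M b : ℤ) (hu : ∀ i e, |u i e| ≤ M) (a : Fin k → ℤ)
    (ha : ∀ i, |∑ e, u i e * a e| ≤ b) :
    (∃ v : Fin k → ℤ, v ≠ 0 ∧ ∀ i, ∑ e, u i e * v e = 0) ∨
      ∀ e, |a e| ≤ k.factorial * M ^ (k - 1) * b := by
  classical
  rcases k with _ | n
  · exact Or.inr fun e => e.elim0
  set r : ι → (Fin (n + 1) → ℚ) := fun i e => (u i e : ℚ) with hr
  by_cases htop : Submodule.span ℚ (Set.range r) = ⊤
  · right
    obtain ⟨g, hg1, hg2, hg3⟩ := Submodule.exists_fun_fin_finrank_span_eq ℚ (Set.range r)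
    have hfin : Module.finrank ℚ (Submodule.span ℚ (Set.range r)) = n + 1 := by
      rw [htop, finrank_top, Module.finrank_fintype_fun_eq_card, Fintype.card_fin]
    let ε : Fin (n + 1) ≃ Fin (Module.finrank ℚ (Submodule.span ℚ (Set.range r))) := finCongr hfin.symm
    choose f hf using fun j => hg1 (ε j)
    have hli : LinearIndependent ℚ (fun j => r (f j)) := by
      have h1 : (fun j => r (f j)) = g ∘ ε := funext hf
      rw [h1]
      exact hg3.comp _ ε.injective
    let U : Matrix (Fin (n + 1)) (Fin (n + 1)) ℤ := fun j e => u (f j) e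
    have hdet : U.det ≠ 0 := by
      intro h0
      have h1 : (U.map (Int.castRingHom ℚ)).det = 0 := by
        have h2 := RingHom.map_det (Int.castRingHom ℚ) U
        rw [h0, map_zero] at h2
        exact h2.symm
      have h3 : IsUnit (U.map (Int.castRingHom ℚ)) := by
        rw [← Matrix.linearIndependent_rows_iff_isUnit]
        exact hli
      rw [Matrix.isUnit_iff_isUnit_det, h1] at h3
      exact not_isUnit_zero h3
    intro e
    have := cramer_aux U hdet M b (fun i e => hu _ _) a (fun i => ha _) e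
    rw [Nat.add_sub_cancel]
    exact this
  · left
    obtain ⟨φ, hφ0, hφ⟩ := Submodule.exists_le_ker_of_lt_top _ (lt_top_iff_ne_top.mpr htop)
    set w : Fin (n + 1) → ℚ := fun e => φ (Pi.single e 1) with hw
    have hφw : ∀ x : Fin (n + 1) → ℚ, φ x = ∑ e, x e * w e := by
      intro x
      rw [LinearMap.pi_apply_eq_sum_univ φ x]
      refine sum_congr rfl fun e _ => ?_
      rw [smul_eq_mul]
      congr 2
      funext l
      rw [Pi.single_apply]
      simp only [eq_comm]
    have hw0 : w ≠ 0 := by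
      intro h
      apply hφ0
      refine LinearMap.ext fun x => ?_
      rw [hφw, h]
      simp
    obtain ⟨D, v, hD, hv0, hv⟩ := clear_den w hw0
    refine ⟨v, hv0, fun i => ?_⟩
    have h1 : φ (r i) = 0 := hφ (Submodule.subset_span ⟨i, rfl⟩)
    rw [hφw] at h1
    have h2 : ((∑ e, u i e * v e : ℤ) : ℚ) = 0 := by
      push_cast
      calc ∑ e, (u i e : ℚ) * (v e : ℚ) = D * ∑ e, r i e * w e := by
            rw [mul_sum]
            refine sum_congr rfl fun e _ => ?_
            rw [hv]; ring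
        _ = 0 := by rw [h1, mul_zero]
    exact_mod_cast h2

end Pool.Agent.N415.FB
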